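import Pool.Agent.Q100.CoeMain

/-!
# Ergodic backward shifts on nuclear coechelon spaces are sequentially hypercyclic

The definitions are in `Pool/Agent/Q100/CoeDefs.lean`.
-/

set_option autoImplicit false
open scoped ENNReal

namespace Pool.Agent.Results.MP_b30f08_an.ErgodicNuclear

open Q100.Coe

universe u

/-- The negated form of Q1: if `k_p(V)` is nuclear and the backward shift maps it into itself and
is topologically ergodic, then it is sequentially hypercyclic. Here `q` is the exponent `p`, and
`q = ∞` stands for `c_0`, i.e. for `p = 0`. -/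
theorem result : ∀ (𝕜 : Type u) [RCLike 𝕜] (q : ℝ≥0∞) [Fact (1 ≤ q)] (V : Weights)
    (hB : ∀ x ∈ coechelon 𝕜 q V, sh x ∈ coechelon 𝕜 q V),
    IsNuclearSpace 𝕜 (Koe 𝕜 q V) → TopErgodic (bshift hB) → SeqHypercyclic (bshift hB) :=
  fun _ _ _ _ _ hB hnuc herg => main hB hnuc herg

end Pool.Agent.Results.MP_b30f08_an.ErgodicNuclear
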